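import Pool.Agent.MP_ed9623_an.H77.SpecX

/-! The weighted energy identity. -/

open MeasureTheory Filter Topology Set
open scoped ContDiff

namespace Pool.Agent.MP_ed9623_an.H77

open H64

namespace EnId

variable {β : ℝ → ℝ}

theorem sup (c : P) :
    tsupport (fun x => β (qc c x)) ⊆ qc c ⁻¹' tsupport β :=
  closure_minimal (fun _ hx => subset_tsupport β hx)
    ((isClosed_tsupport β).preimage (sm_qc c).continuous)

theorem test (c : P) (h : ContDiff ℝ ∞ β) (hβ : HasCompactSupport β) :
    Test univ fun x => β (qc c x) := by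
  obtain ⟨R, hR⟩ := hβ.isCompact.bddAbove
  refine ⟨h.comp (sm_qc c), (isCompact_disc c (R + 1)).of_isClosed_subset (isClosed_tsupport _)
    fun x hx => ?_, subset_univ _⟩
  have h1 : qc c x ≤ R := hR (sup c hx)
  have h2 : 0 ≤ qc c x := by unfold qc; positivity
  change qc c x ≤ (R + 1) ^ 2
  nlinarith

theorem pd_b (c : P) (h : ContDiff ℝ ∞ β) (i : Fin 2) (x : P) :
    pd (ee i) (fun x => β (qc c x)) x = deriv β (qc c x) * (2 * Xc c i x) := by
  have a := (h.differentiable (by simp) (qc c x)).hasDerivAt.comp_hasFDerivAt x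
    (sm_diff (sm_qc c) x).hasFDerivAt
  rw [← pd_qc]
  exact congrArg (fun l : P →L[ℝ] ℝ => l (ee i)) a.fderiv

end EnId

open EnId

theorem rowEnId : OfEnId := by
  intro Ω N c v z β hv hz hH h hβ hN
  have hb := test c h hβ
  have hd : ∀ j i, M2 (gj v j i) := fun j i => M2.coe _
  have hcl : IsClosed {u : E6 | ∑ j, ((∫ x, u (j, none) x * (β (qc c x) * z j x)) +
      ∑ i, ((∫ x, u (j, some i) x * (β (qc c x) * gj v j i x)) +
        ∫ x, u (j, none) x * (pd (ee i) (fun x => β (qc c x)) x * gj v j i x))) = 0} :=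
    isClosed_eq (continuous_finsetSum _ fun j _ =>
      ((ct_int ((hz j).tmul hb)).comp (ct_co _)).add (continuous_finsetSum _ fun i _ =>
        ((ct_int ((hd j i).tmul hb)).comp (ct_co _)).add
          ((ct_int ((hd j i).tmul (hb.pd _))).comp (ct_co _)))) continuous_const
  have key := closure_minimal (s := (Y0 Ω : Set E6)) (by
    rintro u ⟨φ, hφ, hu⟩
    refine Finset.sum_eq_zero fun j _ => ?_
    have ht : Test N fun x => β (qc c x) * φ j x := ⟨hb.1.mul (hφ j).1, ((hφ j).smul hb.1).2.1,
      fun x hx => hN x ((hφ j).2.2 (tsupport_mul_subset_right hx))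
        (sup c (tsupport_mul_subset_left hx))⟩
    rw [← hH j _ ht]
    congr 1
    · refine integral_congr_ae ?_
      filter_upwards [(hu j).1] with x hx
      rw [show u (j, none) x = φ j x from hx]
      ring
    · refine Finset.sum_congr rfl fun i _ => ?_
      rw [← integral_add ((M2.coe _).int_mul ((hd j i).tmul hb))
        ((M2.coe _).int_mul ((hd j i).tmul (hb.pd _)))]
      refine integral_congr_ae ?_
      filter_upwards [(hu j).1, (hu j).2 i] with x hx hx'
      rw [show u (j, none) x = φ j x from hx, show u (j, some i) x = _ from hx',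
        pd_mul _ (sm_diff hb.1 x) (sm_diff (hφ j).1 x)]
      ring) hcl hv
  have i1 := fun j => (M2.coe (v (j, none))).int_mul ((hz j).tmul hb)
  have i2 := fun j i => (M2.coe (v (j, some i))).int_mul ((hd j i).tmul hb)
  have i3 := fun j i => (M2.coe (v (j, none))).int_mul ((hd j i).tmul (hb.pd (ee i)))
  have e1 : ∫ x, β (qc c x) * ∑ j, z j x * vl v j x =
      ∑ j, ∫ x, v (j, none) x * (β (qc c x) * z j x) := by
    rw [← integral_finsetSum _ fun j _ => i1 j]
    exact integral_congr_ae (Eventually.of_forall fun x => by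
      simp only [Fin.sum_univ_two, vl]; ring)
  have e2 : ∫ x, β (qc c x) * ∑ j, ∑ i, gj v j i x ^ 2 =
      ∑ j, ∑ i, ∫ x, v (j, some i) x * (β (qc c x) * gj v j i x) := by
    simp only [← integral_finsetSum _ fun i _ => i2 _ i]
    rw [← integral_finsetSum _ fun j _ => integrable_finsetSum _ fun i _ => i2 j i]
    exact integral_congr_ae (Eventually.of_forall fun x => by
      simp only [Fin.sum_univ_two, gj]; ring)
  have e3 : 2 * ∫ x, deriv β (qc c x) * Ph c (vl v) (gj v) x =
      ∑ j, ∑ i, ∫ x, v (j, none) x * (pd (ee i) (fun x => β (qc c x)) x * gj v j i x) := by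
    simp only [← integral_finsetSum _ fun i _ => i3 _ i]
    rw [← integral_finsetSum _ fun j _ => integrable_finsetSum _ fun i _ => i3 j i,
      ← integral_const_mul]
    exact integral_congr_ae (Eventually.of_forall fun x => by
      simp only [pd_b c h, Fin.sum_univ_two, Ph, vl]; ring)
  rw [e1, e2, e3, ← key]
  simp only [Finset.sum_add_distrib, add_assoc]

end Pool.Agent.MP_ed9623_an.H77
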